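import Pool.Agent.helper91.RB.Spec3

/-! # Row rb:AM2 -/

set_option autoImplicit false

namespace Pool.Agent.RB

open NumberField IsDedekindDomain Module
open scoped nonZeroDivisors Real Classical

section AM2

variable (k K : Type) [Field k] [NumberField k] [Field K] [NumberField K] [Algebra k K]

/-- the ramification index -/
noncomputable def AM2_e (P : HOS K) : ℤ := if ty K (P.under (𝓞 k)) = 0 then 2 else 1

theorem AM2_e_ne (P : HOS K) : AM2_e k K P ≠ 0 := by
  unfold AM2_e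
  split_ifs <;> norm_num

theorem AM2_exists_c [Algebra.IsQuadraticExtension k K] : ∃ c : K ≃ₐ[k] K, c ≠ 1 := by
  have h : Nat.card (K ≃ₐ[k] K) = 2 := by
    rw [IsGalois.card_aut_eq_finrank]
    exact Algebra.IsQuadraticExtension.finrank_eq_two k K
  have hf : Finite (K ≃ₐ[k] K) := Nat.finite_of_card_ne_zero (by rw [h]; norm_num)
  have : Nontrivial (K ≃ₐ[k] K) := Finite.one_lt_card_iff_nontrivial.mp (by rw [h]; norm_num)
  exact exists_ne 1

theorem AM2_fib (hTYP : TYP_stmt) [Algebra.IsQuadraticExtension k K] (q : HOS k) :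
    {R : HOS K | R.under (𝓞 k) = q}.Finite ∧ {R : HOS K | R.under (𝓞 k) = q}.Nonempty ∧
      ∀ R : HOS K, R.under (𝓞 k) = q → ∀ x : k, ord R (algebraMap k K x) = AM2_e k K R * ord q x := by
  obtain ⟨c, hc⟩ := AM2_exists_c k K
  rcases hTYP k K c hc q with ⟨h0, P, P', hne, hset, -, -, -, -, hx⟩ | ⟨h0, P, hset, -, -, hx⟩ |
    ⟨h0, P, hset, -, -, hx⟩
  · refine ⟨by rw [hset]; exact Set.toFinite _, by rw [hset]; exact ⟨P, Or.inl rfl⟩, ?_⟩
    intro R hR x
    have hR' : R ∈ {R : HOS K | R.under (𝓞 k) = q} := hR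
    rw [hset] at hR'
    have he : AM2_e k K R = 1 := by
      unfold AM2_e
      rw [hR, h0, if_neg (by norm_num)]
    rw [he, one_mul]
    rcases hR' with h | h
    · rw [h]; exact (hx x).1
    · rw [h]; exact (hx x).2
  · refine ⟨by rw [hset]; exact Set.toFinite _, by rw [hset]; exact ⟨P, rfl⟩, ?_⟩
    intro R hR x
    have hR' : R ∈ {R : HOS K | R.under (𝓞 k) = q} := hR
    rw [hset] at hR'
    have he : AM2_e k K R = 1 := by
      unfold AM2_e
      rw [hR, h0, if_neg (by norm_num)]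
    rw [he, one_mul, show R = P from hR']
    exact hx x
  · refine ⟨by rw [hset]; exact Set.toFinite _, by rw [hset]; exact ⟨P, rfl⟩, ?_⟩
    intro R hR x
    have hR' : R ∈ {R : HOS K | R.under (𝓞 k) = q} := hR
    rw [hset] at hR'
    have he : AM2_e k K R = 2 := by
      unfold AM2_e
      rw [hR, h0, if_pos rfl]
    rw [he, show R = P from hR']
    exact hx x

theorem AM2_supp (hTYP : TYP_stmt) [Algebra.IsQuadraticExtension k K] (E : Dv k) :
    (Function.support fun P : HOS K => AM2_e k K P * E (P.under (𝓞 k))).Finite := by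
  refine (E.hasFiniteSupport.biUnion fun q _ => (AM2_fib k K hTYP q).1).subset ?_
  intro P hP
  rw [Function.mem_support] at hP
  rw [Set.mem_iUnion₂]
  refine ⟨P.under (𝓞 k), ?_, rfl⟩
  rw [Function.mem_support]
  intro h
  exact hP (by rw [h, mul_zero])

/-- the map `Dv k → Dv K` -/
noncomputable def AM2_Phi (hTYP : TYP_stmt) [Algebra.IsQuadraticExtension k K] : Dv k →+ Dv K where
  toFun E := Finsupp.ofSupportFinite (fun P : HOS K => AM2_e k K P * E (P.under (𝓞 k)))
    (AM2_supp k K hTYP E)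
  map_zero' := by
    ext P
    show AM2_e k K P * (0 : Dv k) (P.under (𝓞 k)) = 0
    rw [Finsupp.zero_apply, mul_zero]
  map_add' := by
    intro E E'
    ext P
    show AM2_e k K P * (E + E') (P.under (𝓞 k)) =
      AM2_e k K P * E (P.under (𝓞 k)) + AM2_e k K P * E' (P.under (𝓞 k))
    rw [Finsupp.add_apply, mul_add]

theorem AM2_Phi_apply (hTYP : TYP_stmt) [Algebra.IsQuadraticExtension k K] (E : Dv k) (P : HOS K) :
    AM2_Phi k K hTYP E P = AM2_e k K P * E (P.under (𝓞 k)) := rfl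

theorem AM2_Phi_inj (hTYP : TYP_stmt) [Algebra.IsQuadraticExtension k K] :
    Function.Injective (AM2_Phi k K hTYP) := by
  intro E E' h
  ext q
  obtain ⟨P, hP⟩ := (AM2_fib k K hTYP q).2.1
  have h1 := congrArg (fun D : Dv K => D P) h
  simp only [AM2_Phi_apply] at h1
  have h2 := mul_left_cancel₀ (AM2_e_ne k K P) h1
  rwa [show P.under (𝓞 k) = q from hP] at h2

theorem AM2_Ik (hTYP : TYP_stmt) [Algebra.IsQuadraticExtension k K] :
    Ik K k = (⊤ : AddSubgroup (Dv k)).map (AM2_Phi k K hTYP) := by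
  ext D
  rw [AddSubgroup.mem_map]
  constructor
  · rintro ⟨E, hE⟩
    refine ⟨E, AddSubgroup.mem_top _, ?_⟩
    ext P
    rw [AM2_Phi_apply]
    exact (hE P).symm
  · rintro ⟨E, -, rfl⟩
    exact ⟨E, fun P => AM2_Phi_apply k K hTYP E P⟩

theorem AM2_Pk (hORD : ORD_stmt) (hTYP : TYP_stmt) [Algebra.IsQuadraticExtension k K] :
    Pk K k = (Pr k).map (AM2_Phi k K hTYP) := by
  ext D
  rw [AddSubgroup.mem_map]
  constructor
  · rintro ⟨x, hx, hD⟩
    refine ⟨Finsupp.ofSupportFinite (fun q : HOS k => ord q x) ((hORD k).1 x hx), ⟨x, hx, fun q => rfl⟩, ?_⟩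
    ext P
    rw [AM2_Phi_apply, hD P, (AM2_fib k K hTYP (P.under (𝓞 k))).2.2 P rfl x]
    rfl
  · rintro ⟨E, ⟨x, hx, hE⟩, rfl⟩
    refine ⟨x, hx, fun P => ?_⟩
    rw [AM2_Phi_apply, hE, (AM2_fib k K hTYP (P.under (𝓞 k))).2.2 P rfl x]

end AM2

theorem AM2 (hORD : ORD_stmt) (hDCL : DCL_stmt) (hTYP : TYP_stmt) : AM2_stmt := by
  intro k K _ _ _ _ _ _
  rw [AM2_Ik k K hTYP, AM2_Pk k K hORD hTYP]
  refine ⟨AddSubgroup.map_mono le_top, ?_⟩
  rw [AddSubgroup.relIndex_map_map_of_injective _ _ (AM2_Phi_inj k K hTYP), AddSubgroup.relIndex_top_right]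
  exact hDCL k

end Pool.Agent.RB
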