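import Pool.Agent.helper91.RB.Spec4

/-! # Row rb:CO2 -/

set_option autoImplicit false

namespace Pool.Agent.RB

open Module Polynomial
open scoped Classical

/-- the embedding of the cyclotomic field -/
theorem CO2_emb (n : ℕ) [NeZero n] (ζ : ℂ) (hζ : IsPrimitiveRoot ζ n) (K : Type) [Field K] [CharZero K]
    [IsCyclotomicExtension {n} ℚ K] (ζK : K) (hζK : IsPrimitiveRoot ζK n) : ∃ f : K →ₐ[ℚ] ℂ, f ζK = ζ := by
  have hn : 0 < n := Nat.pos_of_ne_zero (NeZero.ne n)
  have h0 : aeval ζ (minpoly ℚ (hζK.powerBasis ℚ).gen) = 0 := by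
    rw [IsPrimitiveRoot.powerBasis_gen, ← cyclotomic_eq_minpoly_rat hζK hn, cyclotomic_eq_minpoly_rat hζ hn]
    exact minpoly.aeval _ _
  refine ⟨(hζK.powerBasis ℚ).lift ζ h0, ?_⟩
  have := (hζK.powerBasis ℚ).lift_gen ζ h0
  rwa [IsPrimitiveRoot.powerBasis_gen] at this

theorem CO2 : CO2_stmt := by
  intro h ζ hζ q hint i hi
  have : NeZero (2 ^ (h + 1)) := ⟨by positivity⟩
  have : Fact (Nat.Prime 2) := ⟨Nat.prime_two⟩
  have hn : 0 < 2 ^ (h + 1) := by positivity
  have htot : Nat.totient (2 ^ (h + 1)) = 2 ^ h := by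
    rw [Nat.totient_prime_pow_succ Nat.prime_two]; norm_num
  let K := CyclotomicField (2 ^ (h + 1)) ℚ
  have : NeZero (((2 ^ (h + 1) : ℕ)) : ℚ) := ⟨by positivity⟩
  have : IsCyclotomicExtension {2 ^ (h + 1)} ℚ K := CyclotomicField.isCyclotomicExtension _ _
  let ζK : K := IsCyclotomicExtension.zeta (2 ^ (h + 1)) ℚ K
  have hζK : IsPrimitiveRoot ζK (2 ^ (h + 1)) := IsCyclotomicExtension.zeta_spec (2 ^ (h + 1)) ℚ K
  obtain ⟨f, hf⟩ := CO2_emb (2 ^ (h + 1)) ζ hζ K ζK hζK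
  -- the element of `K`
  let a : K := aeval ζK (∑ i ∈ Finset.range (2 ^ h), C (q i) * X ^ i : ℚ[X])
  have hfa : f a = ∑ i ∈ Finset.range (2 ^ h), ((q i : ℚ) : ℂ) * ζ ^ i := by
    show f (aeval ζK (∑ i ∈ Finset.range (2 ^ h), C (q i) * X ^ i : ℚ[X])) = _
    rw [map_sum, map_sum]
    refine Finset.sum_congr rfl fun j _ => ?_
    rw [map_mul, map_mul, aeval_C, AlgHom.commutes, map_pow, map_pow, aeval_X, hf]
    rfl
  have hinta : IsIntegral ℤ a := by
    rw [← hfa] at hint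
    exact (isIntegral_algHom_iff (f.restrictScalars ℤ) f.injective).mp hint
  -- it is in `ℤ[ζ]`
  have hcl := IsCyclotomicExtension.Rat.isIntegralClosure_adjoin_singleton_of_prime_pow (p := 2) (k := h + 1)
    (K := K) hζK
  obtain ⟨y, hy⟩ := hcl.isIntegral_iff.1 hinta
  obtain ⟨P, hP⟩ : ∃ P : ℤ[X], aeval ζK P = a := by
    have h1 : (y : K) ∈ (aeval (R := ℤ) ζK).range :=
      (Algebra.adjoin_singleton_eq_range_aeval ℤ ζK) ▸ y.2
    obtain ⟨P, hP⟩ := h1
    refine ⟨P, ?_⟩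
    rw [← hy]
    exact hP
  -- remainder modulo the cyclotomic polynomial
  set R : ℤ[X] := P %ₘ cyclotomic (2 ^ (h + 1)) ℤ with hR
  have hRa : aeval ζK R = a := by
    rw [hR, aeval_modByMonic_eq_self_of_root, hP]
    rw [aeval_def, eval₂_eq_eval_map, map_cyclotomic]
    exact hζK.isRoot_cyclotomic hn
  have hRd : R.degree < (2 ^ h : ℕ) := by
    have h1 := degree_modByMonic_lt P (cyclotomic.monic (2 ^ (h + 1)) ℤ)
    rwa [degree_cyclotomic, htot] at h1
  -- comparison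
  set S : ℚ[X] := R.map (Int.castRingHom ℚ) - ∑ i ∈ Finset.range (2 ^ h), C (q i) * X ^ i with hS
  have hSa : aeval ζK S = 0 := by
    rw [hS, map_sub]
    have : aeval ζK (R.map (Int.castRingHom ℚ)) = a := by
      rw [← hRa, aeval_def, aeval_def, eval₂_map]
      rfl
    rw [this]
    exact sub_self a
  have hSd : S.degree < (2 ^ h : ℕ) := by
    refine (degree_sub_le _ _).trans_lt (max_lt ((degree_map_le).trans_lt hRd) ?_)
    refine (degree_sum_le _ _).trans_lt ?_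
    rw [Finset.sup_lt_iff (by exact_mod_cast WithBot.bot_lt_coe _)]
    intro j hj
    refine (degree_C_mul_X_pow_le j (q j)).trans_lt ?_
    exact_mod_cast Finset.mem_range.mp hj
  have hS0 : S = 0 := by
    by_contra hne
    have h1 := minpoly.degree_le_of_ne_zero ℚ ζK hne hSa
    rw [← cyclotomic_eq_minpoly_rat hζK hn, degree_cyclotomic, htot] at h1
    exact absurd (lt_of_le_of_lt h1 hSd) (lt_irrefl _)
  have hc := congrArg (fun F : ℚ[X] => F.coeff i) hS0
  simp only [hS, coeff_sub, coeff_map, finsetSum_coeff, coeff_C_mul, coeff_X_pow, coeff_zero, mul_ite, mul_one,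
    mul_zero, Finset.sum_ite_eq, Finset.mem_range, hi, if_true] at hc
  exact ⟨R.coeff i, (sub_eq_zero.mp hc).symm⟩

end Pool.Agent.RB
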